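import Pool.Agent.Q311.KO.Iter
import Pool.Agent.Q311.MV.Spec
import Pool.Agent.H340R2.LW

/-!
# Iterated integrals in several variables at almost all points over all number fields

Let `g_0, …, g_(n-1)` be analytic functions on a connected open subset `U` of the affine space with coordinates indexed by
the finite set `X` which form a tower of primitives: `d g_i` is a `1`-form whose coefficients are rational functions of the
coordinates and of the `g_k`, `k < i`. Examples are all iterated integrals of closed rational `1`-forms in several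
variables, such as logarithms of rational functions, hyperlogarithms and the multiple polylogarithms
`Li_(n_1, …, n_r)(x_1, …, x_r)` as functions of `r` variables, on any branch, with any base point and with arbitrary
constants of integration, and all polynomials in such functions. If the `1`-forms are defined over the algebraic
numbers, the values at algebraic points are (with suitable constants of integration) periods.

(A) There are bounds `ω T → ∞` such that, at all points with coordinates in number fields of degree at most `ω T` and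
height at most `T` outside few hypersurfaces of small degree, all relations between the values `g_i(s)` of degree at most
`ω T` whose coefficients are combinations of arbitrary given complex constants `ξ` (for instance powers of `2 π i`, or
multiple zeta values) with integral coefficients in the number field of size at most `T ^ ω T`, are specialisations of
relations between the functions `g_i`, with coefficients in `∑ ξ_a ℚ̄[x]`. This is the bounded form of Kontsevich's
conjecture for these numbers: relations between functions are consequences of linearity, change of variables and Stokes'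
formula in families.

(B) If no `g_i` is a rational function of the coordinates and of the `g_k`, `k < i`, then there are no such relations at
all, also not between the `g_i(s)` and `2 π i`.

There is no condition on the tower in (A): the field generated by the `g_i` is regular over the field of rational
functions (its algebraically closed subfield is the field of rational functions), by Ostrowski's theorem for several
derivations.
-/

set_option autoImplicit false

open Filter NumberField Pool.Agent.Q311.MV Pool.Agent.Q311.KO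
open Pool.Agent.Y890.MV (InnerM RegularM evM)
open Pool.Agent.Y890.SP (Qbar)

namespace Pool.Agent.Results.MP_1eadae_ag.IteratedIntegrals

/-- **Towers of primitives.** The functions `g_i` are analytic on `U`, and the partial derivatives of `g_i` are rational
functions of the coordinates and of the `g_k`, `k < i`. -/
def Tower {X : Type} [Fintype X] [DecidableEq X] (U : Set (X → ℂ)) {n : ℕ} (g : Fin n → (X → ℂ) → ℂ) : Prop :=
  (∀ i, AnalyticOnNhd ℂ (g i) U) ∧ ∀ (i : Fin n) (j : X), ∃ P Q : MvPolynomial {k : Fin n // k < i} (MvPolynomial X ℂ),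
    (∃ x ∈ U, evM (fun k : {k : Fin n // k < i} => g k.1) x Q ≠ 0) ∧
    ∀ x ∈ U, evM (fun k : {k : Fin n // k < i} => g k.1) x Q * fderiv ℂ (g i) x (Pi.single j 1) =
      evM (fun k : {k : Fin n // k < i} => g k.1) x P

/-- no `g_i` is a rational function of the coordinates and of the `g_k`, `k < i` -/
def Reduced {X : Type} (U : Set (X → ℂ)) {n : ℕ} (g : Fin n → (X → ℂ) → ℂ) : Prop :=
  ∀ (i : Fin n) (P Q : MvPolynomial {k : Fin n // k < i} (MvPolynomial X ℂ)),
    (∃ x ∈ U, evM (fun k : {k : Fin n // k < i} => g k.1) x Q ≠ 0) →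
      ¬ ∀ x ∈ U, evM (fun k : {k : Fin n // k < i} => g k.1) x Q * g i x =
        evM (fun k : {k : Fin n // k < i} => g k.1) x P

/-- every polynomial, of degree at most `k` in each variable and with coefficients of the form `∑ a, ξ a * c a`, `c a`
integers of `K` with all conjugates at most `T ^ k`, which vanishes at the values of the functions `f` at `s` is the
specialisation of a relation between the functions, of the same degree and with coefficients of the form
`∑ a, ξ a * G a` with polynomials `G a` in `x` with algebraic coefficients -/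
def Specialised {X σ : Type} [Fintype X] (U : Set (X → ℂ)) (f : σ → (X → ℂ) → ℂ) (k : ℕ) (K : Type)
    [Field K] [NumberField K] (io : K →+* ℂ) (ξ : Fin k → ℂ) (T : ℝ) (s : X → ℂ) : Prop :=
  ∀ P : MvPolynomial σ ℂ, (∀ i, P.degreeOf i ≤ k) →
    (∀ m, ∃ c : Fin k → 𝓞 K, (∀ a (φ : K →+* ℂ), ‖φ (c a : K)‖ ≤ T ^ k) ∧ P.coeff m = ∑ a, ξ a * io (c a : K)) →
    MvPolynomial.eval (fun i => f i s) P = 0 →
    ∃ F : MvPolynomial σ (MvPolynomial X ℂ), (∀ x ∈ U, evM f x F = 0) ∧
      MvPolynomial.map (MvPolynomial.eval s) F = P ∧ (∀ y, F.degreeOf y ≤ k) ∧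
      ∀ m, ∃ G : Fin k → MvPolynomial X Qbar,
        F.coeff m = ∑ a, MvPolynomial.C (ξ a) * MvPolynomial.map (algebraMap Qbar ℂ) (G a)

/-- the number `2 π i` -/
noncomputable def tpi : ℂ := 2 * Real.pi * Complex.I

/-- the polynomial in the `y i`, of degree at most `k` in each of them, with the coefficients `∑ a, c l a * ξ a` -/
noncomputable def value {ι : Type} [Fintype ι] [DecidableEq ι] {k : ℕ} (c : (ι → Fin (k + 1)) → Fin k → ℂ)
    (ξ : Fin k → ℂ) (y : ι → ℂ) : ℂ :=
  ∑ l : ι → Fin (k + 1), (∑ a, c l a * ξ a) * ∏ i, y i ^ (l i : ℕ)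

/-- There is no nontrivial relation of degree at most `k` in each `y i` with coefficients of the form `∑ a, c l a * ξ a`,
and none with coefficients of the form `∑ a, c l a * (2 π i) ^ a` (that is between the `y i` and `2 π i`), where the `c l a`
are integers of `K` with all conjugates at most `T ^ k`. -/
def Independent {ι : Type} [Fintype ι] [DecidableEq ι] (k : ℕ) (K : Type) [Field K] [NumberField K] (io : K →+* ℂ)
    (ξ : Fin k → ℂ) (T : ℝ) (y : ι → ℂ) : Prop :=
  ∀ c : (ι → Fin (k + 1)) → Fin k → 𝓞 K, (∀ l a (φ : K →+* ℂ), ‖φ (c l a : K)‖ ≤ T ^ k) →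
    (value (fun l a => io (c l a : K)) ξ y = 0 → ∀ l, ∑ a, io (c l a : K) * ξ a = 0) ∧
    (value (fun l a => io (c l a : K)) (fun a => tpi ^ (a : ℕ)) y = 0 → ∀ l a, c l a = 0)

/-- the points with coordinates in `K` of height at most `T`, of norm at most `k` and at distance at least `1 / k` from the
complement of `U`, which do not have the property `p` -/
def Exceptional {X : Type} [Fintype X] (U : Set (X → ℂ)) (p : (X → ℂ) → Prop) (k : ℕ) (K : Type) [Field K]
    [NumberField K] (io : K →+* ℂ) (T : ℝ) : Set (X → K) :=
  {s | (∀ j, Y120.HtLe K T (s j)) ∧ (fun j => io (s j)) ∈ InnerM U k ∧ ¬ p (fun j => io (s j))}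

/-- the points lie on at most `T ^ (1 / k)` hypersurfaces of degree at most `T ^ (1 / k)`, and there are at most
`T ^ (1 / k) * N ^ (|X| - 1)` of them, `N` being the number of elements of `K` of height at most `T` -/
def Few {X : Type} [Fintype X] (k : ℕ) (K : Type) [Field K] [NumberField K] (io : K →+* ℂ) (T : ℝ) (S : Set (X → K)) :
    Prop :=
  Y124.Cov ⌊T ^ ((k : ℝ)⁻¹)⌋₊ ⌊T ^ ((k : ℝ)⁻¹)⌋₊ ((fun (s : X → K) i => io (s i)) '' S) ∧ S.Finite ∧
    (S.ncard : ℝ) ≤ T ^ ((k : ℝ)⁻¹) * ({x : K | Y120.HtLe K T x}.ncard : ℝ) ^ (Fintype.card X - 1)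

theorem few_mono {X : Type} [Fintype X] {k : ℕ} {K : Type} [Field K] [NumberField K] {io : K →+* ℂ} {T : ℝ}
    {S S' : Set (X → K)} (h : Few k K io T S') (hS : S ⊆ S') : Few k K io T S :=
  ⟨h.1.mono le_rfl le_rfl (Set.image_mono hS), h.2.1.subset hS,
    le_trans (by exact_mod_cast Set.ncard_le_ncard hS h.2.1) h.2.2⟩

/-- the powers of `2 π i` are independent over the algebraic numbers -/
theorem tpi_indep {k : ℕ} (K : Type) [Field K] [NumberField K] (io : K →+* ℂ) (c : Fin k → K)
    (h : ∑ a, io (c a) * tpi ^ (a : ℕ) = 0) : ∀ a, c a = 0 := by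
  classical
  let p : Polynomial K := ∑ a : Fin k, Polynomial.monomial (a : ℕ) (c a)
  have hp : Polynomial.eval₂ io tpi p = 0 := by
    rw [Polynomial.eval₂_finsetSum]
    rw [← h]
    refine Finset.sum_congr rfl fun a _ => ?_
    rw [Polynomial.eval₂_monomial]
  have htr : Transcendental ℚ tpi := by
    intro h1
    have h2 : IsAlgebraic ℚ (tpi ^ 2) := h1.pow 2
    have h3 : tpi ^ 2 = algebraMap ℚ ℂ (-4) * (Real.pi : ℂ) ^ 2 := by
      unfold tpi
      rw [mul_pow, mul_pow, Complex.I_sq]
      norm_num
    have h4 : (Real.pi : ℂ) ^ 2 = algebraMap ℚ ℂ (-4)⁻¹ * tpi ^ 2 := by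
      rw [h3, ← mul_assoc, ← map_mul]
      norm_num
    have h5 : IsAlgebraic ℚ ((Real.pi : ℂ) ^ 2) := by
      rw [h4]
      exact (isAlgebraic_algebraMap _).mul h2
    exact Pool.Agent.H340R2.LW.transcendental_pi_complex (h5.of_pow two_pos)
  have hp0 : p = 0 := by
    by_contra hne
    apply htr
    let _ : Algebra K ℂ := io.toAlgebra
    have h6 : IsAlgebraic K tpi := ⟨p, hne, hp⟩
    have : IsScalarTower ℚ K ℂ := IsScalarTower.of_algebraMap_eq fun q => by
      rw [eq_ratCast]
      exact (map_ratCast (algebraMap K ℂ) q).symm.trans (by rw [eq_ratCast])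
    exact h6.restrictScalars ℚ
  intro a
  have h7 : p.coeff (a : ℕ) = c a := by
    rw [Polynomial.finsetSum_coeff, Finset.sum_eq_single a]
    · rw [Polynomial.coeff_monomial, if_pos rfl]
    · intro b _ hb
      rw [Polynomial.coeff_monomial, if_neg (fun h8 => hb (Fin.ext h8))]
    · intro h8
      exact absurd (Finset.mem_univ a) h8
  rw [← h7, hp0, Polynomial.coeff_zero]

/-- Let `U` be a connected open subset of `ℂ ^ X` and `g_0, …, g_(n-1)` a tower of primitives on `U`. There is `ω → ∞` such
that for all large `T`, all number fields `K` of degree at most `ω T`, all embeddings and all complex numbers `ξ a`,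
`a < ω T`, there are few points at which some relation is not specialised from a relation between the functions (A), and,
if the tower is reduced, few points at which the values are not independent (B). -/
theorem result {X : Type} [Fintype X] [DecidableEq X] [Nonempty X] (U : Set (X → ℂ)) (hU : IsPreconnected U)
    (hUo : IsOpen U) (hne : U.Nonempty) (n : ℕ) (g : Fin n → (X → ℂ) → ℂ) (hg : Tower U g) :
    (∃ (ω : ℝ → ℕ) (T₀ : ℝ), Tendsto ω atTop atTop ∧ Monotone ω ∧ ∀ T, T₀ ≤ T → 0 < ω T ∧
      ∀ (K : Type) [Field K] [NumberField K], Module.finrank ℚ K ≤ ω T → ∀ (io : K →+* ℂ) (ξ : Fin (ω T) → ℂ),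
        Few (ω T) K io T (Exceptional U (Specialised U g (ω T) K io ξ T) (ω T) K io T)) ∧
    (Reduced U g → ∃ (ω : ℝ → ℕ) (T₀ : ℝ), Tendsto ω atTop atTop ∧ Monotone ω ∧ ∀ T, T₀ ≤ T → 0 < ω T ∧
      ∀ (K : Type) [Field K] [NumberField K], Module.finrank ℚ K ≤ ω T → ∀ (io : K →+* ℂ) (ξ : Fin (ω T) → ℂ),
        Few (ω T) K io T
          (Exceptional U (fun s => Independent (ω T) K io ξ T (fun i => g i s)) (ω T) K io T)) := by
  classical
  refine ⟨?_, fun hred => ?_⟩
  · have hreg := tower_reg0 hU hUo hne g hg.1 hg.2
    obtain ⟨ω, T₀, h1, h2, h3⟩ := spec_main hU hUo hne (f := g) hg.1 hreg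
    refine ⟨ω, T₀, h1, h2, fun T hT => ⟨(h3 T hT).1, fun K _ _ hK io ξ => ?_⟩⟩
    have h4 : Few (ω T) K io T _ := (h3 T hT).2 K hK io ξ
    refine few_mono h4 ?_
    rintro s ⟨hs1, hs2, hs3⟩
    exact ⟨hs1, hs2, fun hf => hs3 fun P hP hc hv => hf P hP hc hv⟩
  · have hind := tower_indep hU hUo hne g hg.1 hg.2 hred
    obtain ⟨ω, T₀, h1, h2, h3⟩ := Pool.Agent.Q311.MV.main hU hUo hne hg.1 hind (fun _ a => tpi ^ (a : ℕ))
    refine ⟨ω, T₀, h1, h2, fun T hT => ⟨(h3 T hT).1, fun K _ _ hK io ξ => ?_⟩⟩
    have h4 : Few (ω T) K io T _ := (h3 T hT).2 K hK io ξ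
    refine few_mono h4 ?_
    rintro s ⟨hs1, hs2, hs3⟩
    refine ⟨hs1, hs2, fun hf => hs3 fun c hc => ⟨fun hv => hf.1 c hc hv, fun hv => ?_⟩⟩
    intro l a
    have h7 := hf.2 c hc hv l
    have h8 := tpi_indep K io (fun a => (c l a : K)) h7 a
    exact_mod_cast h8

end Pool.Agent.Results.MP_1eadae_ag.IteratedIntegrals
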