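import Pool.Agent.Q23.AQ.Comb
import Pool.Agent.Q23.AQ.Few
import Pool.Agent.Q23.AQ.LiC
import Pool.Agent.TH818.AP.LiInd
import Pool.Agent.TH818.AP.LiLoc

/-!
# Mixed families with nested singularities: elliptic, Kummer and polylogarithm periods jointly

Let `c < α'_1, …, α'_M < 0 < α_1, …, α_N < a < b < γ_1, …, γ_N < 1 < γ'_1, …, γ'_M` be real numbers and `x_1, …, x_k` distinct
with `c + x_i > 0`. For algebraic `t` in `[a, b]` consider the mixed motive
`M_t = ⊕ H¹(E_{λ_j(t)}) ⊕ ⊕ H¹(E_{λ'_i(t)}) ⊕ (Kummer motives of t + x_1, …, t + x_k) ⊕ (polylogarithm motive of t)`,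
with `λ_j(t) = (t - α_j) / (γ_j - α_j)`, `λ'_i(t) = (t - α'_i) / (γ'_i - α'_i)`, whose singular fibres lie inside and outside of
the singular fibres `0`, `1` of the polylogarithm motive. For rational `α, γ, α', γ', x` its periods are generated over
`ℚ(2 π i)` by the `3 N + 3 M + k + w + 1` numbers `K(λ)`, `E(λ)`, `K(1 - λ)`, `log(t + x_i)`, `log t`, `Li_1(t)`, …, `Li_w(t)`.
The period conjecture predicts that for all `t` (and `n`-tuples of `t`) outside of a small set a polynomial in these numbers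
vanishes only for formal reasons. We prove that for every finite set of algebraic points (of bounded degree) all but few
`n`-tuples have no relation at all, exact or approximate, of bounded degree with coefficients of polynomial height over any
finitely generated module of constants (which may contain powers of `2 π i` and periods of any other fixed variety).
-/

set_option autoImplicit false

open Set Filter Topology NumberField

namespace Pool.Agent.Results.MP_1eadae_ag.MixedFamilies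

/-- The exceptional `n`-tuples of elements of the finite subset `X` of the number field `F ⊆ ℂ`: there is a polynomial `P`
of degree at most `d` in each variable, with coefficients of the form `∑ ξ_a ι(c_a)`, where the `c_a` are integers of `F`
all of whose conjugates have absolute value at most `T ^ A`, such that the value of `P` at the numbers `f y (ι (q h))` is
at most `T ^ (-B)` times the absolute value of some nonzero coefficient of `P`. -/
def Exceptional {κ : Type} (f : κ → ℝ → ℝ) (n d : ℕ) {g : ℕ} (F : Type) [Field F] [NumberField F] (ι : F →+* ℂ)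
    (ξ : Fin g → ℂ) (X : Finset F) (A B T : ℝ) : Set (Fin n → F) :=
  {q | (∀ h, q h ∈ X) ∧ ∃ P : MvPolynomial (Fin n × κ) ℂ, (∀ x, P.degreeOf x ≤ d) ∧
    (∀ s, ∃ c : Fin g → 𝓞 F, (∀ a (φ : F →+* ℂ), ‖φ (c a)‖ ≤ T ^ A) ∧ P.coeff s = ∑ a, ξ a * ι (c a)) ∧
    ∃ s₀, P.coeff s₀ ≠ 0 ∧ ‖MvPolynomial.aeval (fun x : Fin n × κ => ((f x.2 (ι (q x.1)).re : ℝ) : ℂ)) P‖ ≤
      T ^ (-B) * ‖P.coeff s₀‖}

/-- For all `m`, `n`, `g`, `d`, `A` and `ε > 0` there are `B`, `C`, `T₀` such that for every number field `F` of degree at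
most `m`, every embedding `ι` of `F` in `ℂ`, all complex numbers `ξ_1, …, ξ_g`, all `T ≥ T₀` and every finite set `X` of
elements of `F` whose images are real numbers of `[a, b]` and which are quotients of two integers of `F` all of whose
conjugates have absolute value at most `T`, the number of exceptional `n`-tuples of `X ^ n` is at most
`C T^ε |X|^(n - 1)`. -/
def FewExceptions {κ : Type} (f : κ → ℝ → ℝ) (a b : ℝ) : Prop :=
  ∀ (m n g d : ℕ) (A ε : ℝ), 0 < ε → ∃ B C T₀ : ℝ, ∀ (F : Type) [Field F] [NumberField F],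
    Module.finrank ℚ F ≤ m → ∀ (ι : F →+* ℂ) (ξ : Fin g → ℂ) (T : ℝ), T₀ ≤ T → ∀ X : Finset F,
      (∀ x ∈ X, (∃ t : ℝ, a ≤ t ∧ t ≤ b ∧ ι x = t) ∧
        ∃ a b : 𝓞 F, b ≠ 0 ∧ (∀ φ : F →+* ℂ, ‖φ a‖ ≤ T ∧ ‖φ b‖ ≤ T) ∧ x = a / b) →
      ((Exceptional f n d F ι ξ X A B T).ncard : ℝ) ≤ C * T ^ ε * (X.card : ℝ) ^ (n - 1)

/-- The complete elliptic integral of the first kind, `K(s) = ∫_0^{π/2} (1 - s sin²θ)^(-1/2) dθ`. -/
noncomputable def K (s : ℝ) : ℝ := ∫ θ in (0 : ℝ)..(Real.pi / 2), 1 / √(1 - s * Real.sin θ ^ 2)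

/-- The complete elliptic integral of the second kind, `E(s) = ∫_0^{π/2} (1 - s sin²θ)^(1/2) dθ`. -/
noncomputable def E (s : ℝ) : ℝ := ∫ θ in (0 : ℝ)..(Real.pi / 2), √(1 - s * Real.sin θ ^ 2)

/-- The polylogarithm `Li_k(t) = ∑_{n ≥ 1} t ^ n / n ^ k`. -/
noncomputable def Li (k : ℕ) (t : ℝ) : ℝ := ∑' n : ℕ, t ^ (n + 1) / ((n : ℝ) + 1) ^ k

/-- The three functions `K(s)`, `E(s)`, `K(1 - s)` of `s = (t - α) / (γ - α)`. -/
noncomputable def leg (α γ : ℝ) (i : Fin 3) (t : ℝ) : ℝ :=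
  ![K ((t - α) / (γ - α)), E ((t - α) / (γ - α)), K (1 - (t - α) / (γ - α))] i

/-- The `3 N + 3 M + k + w + 1` functions: `K(s)`, `E(s)`, `K(1 - s)` for `s = (t - α_j) / (γ_j - α_j)`, `j < N`, and for
`s = (t - α'_j) / (γ'_j - α'_j)`, `j < M`; `log (t + x_j)`, `j < k`; `log t`, `Li_1(t)`, …, `Li_w(t)`. -/
noncomputable def fn {N M k w : ℕ} (α γ : Fin N → ℝ) (α' γ' : Fin M → ℝ) (x : Fin k → ℝ)
    (z : (Fin N × Fin 3) ⊕ (((Fin M × Fin 3) ⊕ Fin k) ⊕ Fin (w + 1))) (t : ℝ) : ℝ :=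
  match z with
  | Sum.inl (j, i) => leg (α j) (γ j) i t
  | Sum.inr (Sum.inl (Sum.inl (j, i))) => leg (α' j) (γ' j) i t
  | Sum.inr (Sum.inl (Sum.inr j)) => Real.log (t + x j)
  | Sum.inr (Sum.inr k) => if (k : ℕ) = 0 then Real.log t else Li k t

section proofs

open Pool.Agent.TH818.AP Pool.Agent.TH659.AQ Polynomial

theorem leg_eq {α γ : ℝ} (h : α < γ) (i : Fin 3) : leg α γ i = KC α γ i := by
  funext t
  have hne : γ - α ≠ 0 := by linarith
  fin_cases i
  · rfl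
  · rfl
  · show K (1 - (t - α) / (γ - α)) = TH818.AR.KK ((γ - t) / (γ - α))
    have : 1 - (t - α) / (γ - α) = (γ - t) / (γ - α) := by
      field_simp
      ring
    rw [this]
    rfl

/-- the logarithms alone -/
theorem log_base (d k : ℕ) (x : Fin k → ℝ) (hx : Function.Injective x) (a b : ℝ) (hax : ∀ j, 0 < a + x j)
    (hab : a < b) : RIndep (fun (e : Fin k → Fin (d + 1)) (t : ℝ) => ∏ j, lf x j t ^ (e j : ℕ)) a b := by
  intro p hp
  obtain ⟨c, hc1, hc2⟩ : ∃ c : ℝ, c < a ∧ ∀ j, c < -x j := by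
    refine ⟨a - 1 - ∑ j, |a + x j|, ?_, fun j => ?_⟩
    · have : 0 ≤ ∑ j, |a + x j| := Finset.sum_nonneg fun j _ => abs_nonneg _
      linarith
    · have h1 : |a + x j| ≤ ∑ j, |a + x j| :=
        Finset.single_le_sum (f := fun j => |a + x j|) (fun j _ => abs_nonneg _) (Finset.mem_univ j)
      have h2 := le_abs_self (a + x j)
      linarith
  have h1 := Q23.AQ.logC d k c x hx hc2 a b hax hc1 hab (fun e t => (p e).eval t)
    (fun e t _ => AnalyticOnNhd.eval_polynomial _ t (mem_univ _)) (by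
      intro t ht
      have h2 := hp t ht
      exact h2)
  funext e
  have h3 : ∀ t, c < t → (p e).eval t = 0 := h1 e
  refine Polynomial.eq_zero_of_infinite_isRoot _ ((Set.Ioi_infinite c).mono ?_)
  intro t ht
  exact h3 t ht

end proofs

/-- Let `α_1 > ⋯ > α_N > 0`, `γ_1 < ⋯ < γ_N < 1`, `0 < a < b < 1` and `α_1 < a`, `b < γ_1`; let
`0 > α'_1 > ⋯ > α'_M > c`, `1 < γ'_1 < ⋯ < γ'_M`, and let `x_1, …, x_k` be distinct with `c + x_j > 0`, where `c < 0`. Then there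
are few exceptions in `[a, b]` for the `3 N + 3 M + k + w + 1` functions `fn`. -/
theorem result {N M k : ℕ} (w : ℕ) (α γ : Fin N → ℝ) (hα : StrictAnti α) (hγ : StrictMono γ) (hα0 : ∀ j, 0 < α j)
    (hγ1 : ∀ j, γ j < 1) (α' γ' : Fin M → ℝ) (hα' : StrictAnti α') (hγ' : StrictMono γ') (hα'0 : ∀ j, α' j < 0)
    (hγ'1 : ∀ j, 1 < γ' j) (x : Fin k → ℝ) (hx : Function.Injective x) (c : ℝ) (hc : c < 0) (hcα : ∀ j, c < α' j)
    (hcx : ∀ j, 0 < c + x j) (a b : ℝ) (ha : 0 < a) (hab : a < b) (hb : b < 1) (h : ∀ j, α j < a ∧ b < γ j) :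
    FewExceptions (fn (w := w) α γ α' γ' x) a b := by
  intro m n g d A ε hε
  have hlf : ∀ j t, c < t → AnalyticAt ℝ (TH659.AQ.lf x j) t := by
    intro j t ht
    apply TH659.AQ.lf_an
    linarith [hcx j]
  -- outer families
  obtain ⟨y, hy1, hyγ⟩ : ∃ y : ℝ, 1 ≤ y ∧ ∀ j, γ' j < y := by
    refine ⟨1 + ∑ j, |γ' j|, ?_, fun j => ?_⟩
    · have : 0 ≤ ∑ j, |γ' j| := Finset.sum_nonneg fun j _ => abs_nonneg _
      linarith
    · have h1 : |γ' j| ≤ ∑ j, |γ' j| :=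
        Finset.single_le_sum (f := fun j => |γ' j|) (fun j _ => abs_nonneg _) (Finset.mem_univ j)
      have h2 := le_abs_self (γ' j)
      linarith
  have h1 : ∀ d a' b' : _, a ≤ a' → a' < b' → b' ≤ b →
      TH818.AP.RIndep (fun (e : ((Fin M × Fin 3) ⊕ Fin k) → Fin (d + 1)) (t : ℝ) =>
        ∏ p, Sum.elim (fun z : Fin M × Fin 3 => TH818.AP.KC (α' z.1) (γ' z.1) z.2) (TH659.AQ.lf x) p t ^ (e p : ℕ)) a' b' := by
    intro d a' b' ha' hab' hb'
    refine Q23.AQ.comb_leg (TH659.AQ.lf x) c y a' b' (by linarith) hab' (by linarith) (fun j t ht => hlf j t ht.1) ?_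
      α' γ' hα' hγ' (fun j => by linarith [hα'0 j, hγ'1 j]) hcα hyγ
      (fun j => ⟨by linarith [hα'0 j], by linarith [hγ'1 j]⟩)
    intro a'' b'' ha'' hab'' hb''
    exact log_base d k x hx a'' b'' (fun j => by linarith [hcx j]) hab''
  set u1 : ((Fin M × Fin 3) ⊕ Fin k) → ℝ → ℝ :=
    Sum.elim (fun z : Fin M × Fin 3 => TH818.AP.KC (α' z.1) (γ' z.1) z.2) (TH659.AQ.lf x) with hu1
  have hu1an : ∀ p, ∀ t ∈ Icc (0 : ℝ) 1, AnalyticAt ℝ (u1 p) t := by
    rintro (z | j) t ht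
    · exact TH818.AP.kc_an _ _ (by linarith [hα'0 z.1, hγ'1 z.1]) z.2 t ((hα'0 z.1).trans_le ht.1)
        (lt_of_le_of_lt ht.2 (hγ'1 z.1))
    · exact hlf j t (hc.trans_le ht.1)
  -- polylogarithms
  have h2 : ∀ d a' b' : _, a ≤ a' → a' < b' → b' ≤ b →
      TH818.AP.RIndep (fun (e : (((Fin M × Fin 3) ⊕ Fin k) ⊕ Fin (w + 1)) → Fin (d + 1)) (t : ℝ) =>
        ∏ p, Sum.elim u1 (fun k : Fin (w + 1) => TH818.AP.pl (k : ℕ)) p t ^ (e p : ℕ)) a' b' := by
    intro d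
    exact Q23.AQ.comb_li u1 a b ha hab hb hu1an (fun a' b' ha' hab' hb' => h1 d a' b' ha' hab' hb')
  set u2 : (((Fin M × Fin 3) ⊕ Fin k) ⊕ Fin (w + 1)) → ℝ → ℝ :=
    Sum.elim u1 (fun k : Fin (w + 1) => TH818.AP.pl (k : ℕ)) with hu2
  have hu2an : ∀ p, ∀ t ∈ Ioo (0 : ℝ) 1, AnalyticAt ℝ (u2 p) t := by
    rintro (z | k) t ht
    · exact hu1an z t ⟨ht.1.le, ht.2.le⟩
    · show AnalyticAt ℝ (fun t => TH818.AP.pl (k : ℕ) t) t
      simp only [TH818.AP.pl]
      by_cases hk : (k : ℕ) = 0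
      · simp only [hk, if_true]
        exact analyticAt_log ht.1
      · simp only [hk, if_false]
        exact TH818.AP.liAn _ t ⟨by linarith [ht.1], ht.2⟩
  -- inner families
  have h3 : ∀ d : ℕ, TH818.AP.RIndep (fun (e : ((Fin N × Fin 3) ⊕ (((Fin M × Fin 3) ⊕ Fin k) ⊕ Fin (w + 1))) →
      Fin (d + 1)) (t : ℝ) =>
      ∏ p, Sum.elim (fun z : Fin N × Fin 3 => TH818.AP.KC (α z.1) (γ z.1) z.2) u2 p t ^ (e p : ℕ)) a b := by
    intro d
    refine Q23.AQ.comb_leg u2 0 1 a b ha.le hab hb.le hu2an ?_ α γ hα hγ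
      (fun j => (h j).1.trans (hab.trans (h j).2)) hα0 hγ1 (fun j => ⟨(h j).1.le, (h j).2.le⟩)
    intro a' b' ha' hab' hb'
    exact h2 d a' b' ha' hab' hb'
  have hfn : fn (w := w) α γ α' γ' x =
      Sum.elim (fun z : Fin N × Fin 3 => TH818.AP.KC (α z.1) (γ z.1) z.2) u2 := by
    funext z
    rcases z with ⟨j, i⟩ | (⟨j, i⟩ | j) | k
    · exact leg_eq ((h j).1.trans (hab.trans (h j).2)) i
    · exact leg_eq (by linarith [hα'0 j, hγ'1 j]) i
    · rfl
    · rfl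
  rw [hfn]
  refine Q23.AQ.fewR _ a b ?_ h3 m n g d A ε hε
  rintro (z | z) t ht
  · exact TH818.AP.kc_an _ _ ((h z.1).1.trans (hab.trans (h z.1).2)) z.2 t ((h z.1).1.trans_le ht.1)
      (lt_of_le_of_lt ht.2 (h z.1).2)
  · exact hu2an z t ⟨ha.trans_le ht.1, lt_of_le_of_lt ht.2 hb⟩

end Pool.Agent.Results.MP_1eadae_ag.MixedFamilies
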