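import Pool.Agent.Y918.EL.Main

/-!
# Periods of random 1-motives over elliptic curves with complex multiplication

Let `E_j = ℂ/Ω_j` (`j = 1, …, n`) be elliptic curves over the algebraic numbers with complex multiplication by `α_j`, and
let `u_{j,1}, …, u_{j,k}` be elliptic logarithms of points of `E_j(ℚ̄)` which are linearly independent over
`End(E_j) ⊗ ℚ`. Let `b_j` be further elliptic logarithms of algebraic points. We consider the random points

  `p_j = b_j + ∑_i (m_{j,i,0} + m_{j,i,1} α_j) u_{j,i}`,  all `m ∈ A`,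

where `A` is an arbitrary finite set of integers. The numbers `p_j` and `ζ(p_j)` are (up to algebraic numbers) the
integrals of the first and of the second kind from `0` to `p_j`: together with the periods of `E_j` they are all the
periods of the 1-motive `[ℤ → E_j]` given by `p_j`.

**Theorem.** For all `n`, `D`, `N` there are `k₀`, `C` and `δ > 0` such that for all `k ≥ k₀`, all these data, all `A` and
all spaces `W` over the algebraic numbers of dimension at most `N` (for instance the space generated by the monomials of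
bounded degree in `2πi` and the periods and quasi-periods of the `Ω_j`): for all but `C |A|^(2nk - δk)` of the
`|A|^(2nk)` parameters `m` the points `p_j` are not in `Ω_j`, the numbers `℘(p_j)` are algebraic, and the `2 n` numbers
`p_j`, `ζ(p_j)` satisfy no nonzero polynomial relation of degree at most `D` with coefficients in `W`.

The starting file `RandomSecondKind` has one number `σ_j ζ(p_j) + ρ_j p_j` for each curve, for arbitrary curves; for the
two numbers of a curve at once linear independence is known for curves with complex multiplication.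

**The proof.** `ζ(α z) = a z + b ζ(z)` up to algebraic numbers, so the pairs `(p_j, ζ(p_j))` are combinations of the numbers
`u_{j,i}` and `ζ(u_{j,i})` with coefficients in two conjugate embeddings. By the theorems on linear forms in elliptic
logarithms and in integrals of the second kind (`Pool.Agent.W245.EB.RedZ`, completely formalized) these are linearly
independent over the algebraic numbers. A cube theorem for pairs and an iterated Cauchy-Schwarz inequality bound the number
of the parameters for which there is a relation. The proof is in the starting library `Pool/Agent/Y918/EL`.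
-/

set_option autoImplicit false

open scoped PeriodPair

noncomputable section

namespace Pool.Agent.Results.MP_1eadae_ag.RandomCMPoints

/-- The field of algebraic numbers. -/
abbrev Qbar : IntermediateField ℚ ℂ := algebraicClosure ℚ ℂ

/-- The Weierstrass zeta function
`ζ(z) = 1/z + ∑_{l ≠ 0} (1/(z - l) + 1/l + z/l²)` (in Lean `1/0 = 0`, so that the term with `l = 0`
of the sum below is `1/z`). -/
def zetaW (L : PeriodPair) (z : ℂ) : ℂ := ∑' l : L.lattice, (1 / (z - l) + 1 / l + z / l ^ 2)

/-- `β` belongs to the field `k = End(ℂ/Ω) ⊗ ℚ`: some multiple `m β`, `m ≥ 1`, maps the lattice `Ω`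
to itself. -/
def IsMult (L : PeriodPair) (β : ℂ) : Prop :=
  ∃ m : ℕ, 0 < m ∧ ∀ ω ∈ L.lattice, (m : ℂ) * β * ω ∈ L.lattice

/-- The numbers `w_j` are linearly independent over `k`. -/
def IndepMult (L : PeriodPair) {R : ℕ} (w : Fin R → ℂ) : Prop :=
  ∀ β : Fin R → ℂ, (∀ j, IsMult L (β j)) → ∑ j, β j * w j = 0 → ∀ j, β j = 0

/-- Some nonzero polynomial of total degree at most `D` with coefficients in `W` vanishes at `x`. -/
def Related (W : Submodule Qbar ℂ) (D : ℕ) {σ : Type} (x : σ → ℂ) : Prop :=
  ∃ Q : MvPolynomial σ ℂ, Q ≠ 0 ∧ Q.totalDegree ≤ D ∧ (∀ e, Q.coeff e ∈ W) ∧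
    MvPolynomial.eval x Q = 0

/-- The points `p_j = b_j + ∑_i (m_{j,i,0} + m_{j,i,1} α_j) u_{j,i}`. -/
def point {n k : ℕ} (α b : Fin n → ℂ) (u : Fin n → Fin k → ℂ) (m : Fin n → Fin k × Fin 2 → ℤ)
    (j : Fin n) : ℂ := b j + ∑ i, ((m j (i, 0) : ℂ) + m j (i, 1) * α j) * u j i

open Classical in
/-- **Main result.** -/
theorem result (n D N : ℕ) : ∃ (k₀ C : ℕ) (δ : ℝ), 0 < δ ∧ ∀ k ≥ k₀,
    -- elliptic curves with complex multiplication
    ∀ L : Fin n → PeriodPair, (∀ j, IsAlgebraic ℚ (L j).g₂) → (∀ j, IsAlgebraic ℚ (L j).g₃) →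
    ∀ α : Fin n → ℂ, (∀ j, (α j).im ≠ 0) → (∀ j, ∀ ω ∈ (L j).lattice, α j * ω ∈ (L j).lattice) →
    -- elliptic logarithms of algebraic points
    ∀ u : Fin n → Fin k → ℂ, (∀ j i, u j i ∈ (L j).lattice ∨ IsAlgebraic ℚ (℘[L j] (u j i))) →
    (∀ j, IndepMult (L j) (u j)) →
    ∀ b : Fin n → ℂ, (∀ j, b j ∈ (L j).lattice ∨ IsAlgebraic ℚ (℘[L j] (b j))) →
    ∀ A : Finset ℤ, A.Nonempty →
    ∀ W : Submodule Qbar ℂ, Module.Finite Qbar W → Module.finrank Qbar W ≤ N →
    (((Fintype.piFinset fun _ : Fin n => Fintype.piFinset fun _ : Fin k × Fin 2 => A).filter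
      (fun m => ¬ ((∀ j, point α b u m j ∉ (L j).lattice ∧
          IsAlgebraic ℚ (℘[L j] (point α b u m j))) ∧
        ¬ Related W D (Sum.elim (point α b u m)
          (fun j => zetaW (L j) (point α b u m j)))))).card : ℝ) ≤
      C * (A.card : ℝ) ^ ((2 * n * k : ℝ) - δ * k) := by
  obtain ⟨k₀, C, δ, hδ, h⟩ := Pool.Agent.Y918.EL.cmpoints n D N
  refine ⟨k₀, C, δ, hδ, fun k hk L h2 h3 α hα hm u hu hind b hb A hA W hW hWN => ?_⟩
  let d : Fin n → Pool.Agent.Y918.EL.CM := fun j =>
    { L := L j
      g2 := h2 j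
      g3 := h3 j
      α := α j
      hα := hα j
      hm := hm j }
  have h1 := h k hk d u
    (fun j => ⟨hu j, fun β hβ h0 => funext fun i => hind j β hβ h0 i⟩) b hb A hA W hW hWN
  refine le_trans (Nat.cast_le.2 (Finset.card_le_card ?_)) h1
  intro m hm'
  rw [Finset.mem_filter] at hm' ⊢
  refine ⟨hm'.1, fun hG => hm'.2 ?_⟩
  obtain ⟨hn, hr⟩ := hG
  refine ⟨fun j => ⟨(hn j).1, (hn j).2.resolve_left (hn j).1⟩, ?_⟩
  rintro ⟨Q, hQ, hQd, hQW, hQ0⟩
  apply hQ
  apply hr Q hQd hQW
  rw [← hQ0]
  congr 2
  funext i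
  rcases i with i | i
  · rfl
  · exact Pool.Agent.W245.EB.zt_of_notMem (hn i).1

end Pool.Agent.Results.MP_1eadae_ag.RandomCMPoints
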