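import Pool.Agent.Q229.RAE
import Pool.Agent.TH818.AP.LiInd
import Pool.Agent.TH818.AP.LiLoc

/-!
# Polylogarithms at ALL rational points near almost every real point

For rational numbers `0 < q_j < 1` we consider the `(w + 1) n + 1` numbers `π`, `log q_j`, `Li_1(q_j)`, …, `Li_w(q_j)`.

The starting file `AlmostAllPolylogarithms` bounds the number of the exceptional tuples of height `T` by `T^(2(n-1)+β)` for
some `β < 2`; with the counting theorem of `Pool.Agent.Y120.RealPolys` (`β` arbitrarily small) and coverings we obtain all rational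
points near all real points outside a set of small Hausdorff dimension.
-/

set_option autoImplicit false

open MeasureTheory Filter

namespace Pool.Agent.Results.MP_1eadae_ag.RationalsNearRealPoints

/-- `f 0 t = log t` and `f k t = Li_k(t) = ∑ t^m / m^k` for `k ≥ 1`. -/
noncomputable def f (k : ℕ) (t : ℝ) : ℝ := if k = 0 then Real.log t else ∑' m : ℕ, t ^ (m + 1) / ((m : ℝ) + 1) ^ k

/-- The `(w + 1) n + 1` numbers `π`, `log q_j`, `Li_1(q_j)`, …, `Li_w(q_j)`. -/
noncomputable def periods {n : ℕ} (w : ℕ) (q : Fin n → ℚ) (x : Option (Fin n × Fin (w + 1))) : ℝ :=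
  match x with
  | none => Real.pi
  | some (j, k) => f (k : ℕ) (q j)

/-- **Theorem.** Let `n ≥ 1`, `w ≥ 0`, and consider the numbers `π`, `log q_j`, `Li_k(q_j)`, `1 ≤ k ≤ w` (domain: `0 < x_j < 1`).
Then for every `τ > 0` there is a set `Z ⊂ ℝ^n` of Hausdorff dimension at most
`2 (n - 1) / τ` (dimension `0` for `n = 1`), and of Lebesgue measure zero if `2 (n - 1) < n τ`, such that for all `x ∉ Z` in the domain,
all `d`, `A`, some `B` and all sufficiently large `T` the following holds for ALL rational points `q` with denominators at most `T`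
and `|x_j - q_j| ≤ T ^ (-τ)`: every nonzero integer polynomial of degree at most `d` in each variable with coefficients at
most `T ^ A` takes at these numbers a value larger than `T ^ (-B)` in absolute value. -/
theorem result (n w : ℕ) (hn : 1 ≤ n) (τ : ℝ) (hτ : 0 < τ) :
    ∃ Z : Set (Fin n → ℝ), dimH Z ≤ ENNReal.ofReal (2 * ((n : ℝ) - 1) / τ) ∧
      (2 * ((n : ℝ) - 1) < n * τ → volume Z = 0) ∧
      ∀ x : Fin n → ℝ, (∀ j, 0 < x j ∧ x j < 1) → x ∉ Z → ∀ (d : ℕ) (A : ℝ), ∃ B : ℝ, ∀ᶠ T : ℝ in atTop,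
        ∀ q : Fin n → ℚ, (∀ j, ((q j).den : ℝ) ≤ T ∧ |x j - q j| ≤ T ^ (-τ)) →
        ∀ P : MvPolynomial (Option (Fin n × Fin (w + 1))) ℤ, P ≠ 0 → (∀ z, P.degreeOf z ≤ d) →
          (∀ u, |((P.coeff u : ℤ) : ℝ)| ≤ T ^ A) → T ^ (-B) < |MvPolynomial.aeval (periods w q) P| := by
  have hfk : ∀ k, TH818.AP.pl k = f k := by
    intro k
    funext t
    simp [TH818.AP.pl, f, TH818.AP.Li]
  refine Pool.Agent.Q229.RA.masterOR hn (fun _ (i : Fin (w + 1)) t => f (i : ℕ) t) (fun _ => Set.Ioo 0 1)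
    (fun _ => isOpen_Ioo) ?_ ?_ (fun q => periods w q) (fun _ => rfl) (fun _ _ _ _ => rfl) τ hτ
  · intro j i t ht
    show AnalyticAt ℝ (f (i : ℕ)) t
    rw [← hfk i]
    by_cases hi : (i : ℕ) = 0
    · have : TH818.AP.pl (i : ℕ) = Real.log := by funext t; simp [TH818.AP.pl, hi]
      rw [this]
      exact analyticAt_log ht.1
    · have : TH818.AP.pl (i : ℕ) = TH818.AP.Li (i : ℕ) := by funext t; simp [TH818.AP.pl, hi]
      rw [this]
      exact TH818.AP.liAn _ t ⟨by linarith [ht.1], ht.2⟩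
  · intro j a b hab hsub d
    have hind := TH818.AP.liInd_of TH818.AP.liAn TH818.AP.liLoc w d a b (hsub ⟨le_rfl, hab.le⟩).1 hab
      (hsub ⟨hab.le, le_rfl⟩).2
    have : (fun (e : Fin (w + 1) → Fin (d + 1)) (t : ℝ) => ∏ i : Fin (w + 1), f (i : ℕ) t ^ (e i : ℕ)) =
        fun e : Fin (w + 1) → Fin (d + 1) => TH818.AP.gLi e := by
      funext e t
      simp only [TH818.AP.gLi]
      exact Finset.prod_congr rfl fun i _ => by rw [hfk i]
    rw [this]
    exact hind

end Pool.Agent.Results.MP_1eadae_ag.RationalsNearRealPoints
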